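import Mathlib
import Pool.Agent.Helper323.ChocData

set_option autoImplicit false

open Polynomial

namespace Pool.Agent.Results.MP_2b3e36_an.BistableBound

open Pool.Agent.Helper323.Choc

theorem aeval_evR (t : ℝ) (z : ℂ) : ∀ l : List ℤ,
    aeval z (evR (C t * X : ℝ[X]) l) = evR ((t : ℂ) * z) l
  | [] => by simp [evR]
  | a :: l => by
    simp only [evR, map_add, map_mul, aeval_evR t z l, aeval_C, aeval_X, map_intCast]
    simp

/-- For every real `β ≥ 1/110` there are real polynomials `U`, `V` without zeros in the closed unit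
disc such that `z U(z) + (z² + β) V(z) = 1` (so the controller `U / V` is bistable and stabilizes
`z / (z² + β)`); for `β ≤ 1` the polynomial `q = z U(z)` has the only zero `0` and takes the value
`1` exactly at `± i √β` in the closed unit disc, each with multiplicity one. -/
theorem result (β : ℝ) (h1 : 1 / 110 ≤ β) :
    ∃ U V : ℝ[X],
      X * U + (X ^ 2 + C β) * V = 1 ∧
      (∀ z : ℂ, ‖z‖ ≤ 1 → aeval z U ≠ 0) ∧
      (∀ z : ℂ, ‖z‖ ≤ 1 → aeval z V ≠ 0) ∧
      {z : ℂ | ‖z‖ ≤ 1 ∧ aeval z (X * U) = 0} = {0} ∧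
      (β ≤ 1 → {z : ℂ | ‖z‖ ≤ 1 ∧ aeval z (X * U) = 1} =
        {Complex.I * (Real.sqrt β : ℂ), -(Complex.I * (Real.sqrt β : ℂ))}) := by
  have hβ : 0 < β := by linarith
  obtain ⟨t, ht⟩ : ∃ t : ℝ, t = Real.sqrt (1 / (110 * β)) := ⟨_, rfl⟩
  have ht0 : 0 < t := by rw [ht]; exact Real.sqrt_pos.mpr (by positivity)
  have ht2 : 110 * t ^ 2 = 1 / β := by
    rw [ht, Real.sq_sqrt (by positivity)]
    field_simp
  have ht1 : t ≤ 1 := by
    rw [ht]
    refine Real.sqrt_le_one.mpr ?_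
    rw [div_le_one (by positivity)]
    linarith
  have hS : (0 : ℝ) < (S : ℝ) := by
    have : (0 : ℤ) < S := by decide +kernel
    exact_mod_cast this
  have hS' : (S : ℝ) ≠ 0 := hS.ne'
  have hid0 := ident (C t * X : ℝ[X])
  have hUne := U_ne
  have hVne := V_ne
  generalize hUl : U = Ul at hid0 hUne
  generalize hVl : V = Vl at hid0 hVne
  obtain ⟨A, hA⟩ : ∃ A : ℝ[X], A = evR (C t * X : ℝ[X]) Ul := ⟨_, rfl⟩
  obtain ⟨B, hB⟩ : ∃ B : ℝ[X], B = evR (C t * X : ℝ[X]) Vl := ⟨_, rfl⟩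
  have hid : (C t * X) * A + (1 + 110 * (C t * X) ^ 2) * B = C (S : ℝ) := by
    rw [← hA, ← hB] at hid0
    rw [hid0]
    exact (map_intCast (C : ℝ →+* ℝ[X]) S).symm
  have e0 : C (1 / (S : ℝ)) * C (S : ℝ) = (1 : ℝ[X]) := by
    rw [← C_mul, one_div, inv_mul_cancel₀ hS', C_1]
  have e1 : C (t / (S : ℝ)) = C (1 / (S : ℝ)) * C t := by
    rw [← C_mul]; congr 1; ring
  have e2 : C (1 / ((S : ℝ) * β)) * C β = C (1 / (S : ℝ)) := by
    rw [← C_mul]; congr 1; field_simp
  have e3 : C (1 / ((S : ℝ) * β)) = C (1 / (S : ℝ)) * (110 * C t ^ 2) := by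
    have e110 : (110 : ℝ[X]) = C (110 : ℝ) := (map_ofNat (C : ℝ →+* ℝ[X]) 110).symm
    rw [e110, ← C_pow, ← C_mul, ← C_mul]
    congr 1
    rw [ht2]
    field_simp
  have hbez : X * (C (t / (S : ℝ)) * A) + (X ^ 2 + C β) * (C (1 / ((S : ℝ) * β)) * B) = 1 := by
    linear_combination (X * A) * e1 + B * e2 + X ^ 2 * B * e3 + C (1 / (S : ℝ)) * hid + e0
  have hnorm : ∀ z : ℂ, ‖z‖ ≤ 1 → ‖(t : ℂ) * z‖ ≤ 1 := by
    intro z hz
    rw [norm_mul, Complex.norm_real, Real.norm_eq_abs, abs_of_pos ht0]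
    exact mul_le_one₀ ht1 (norm_nonneg _) hz
  have hU : ∀ z : ℂ, ‖z‖ ≤ 1 → aeval z (C (t / (S : ℝ)) * A) ≠ 0 := by
    intro z hz
    rw [map_mul, hA, aeval_evR, aeval_C]
    apply mul_ne_zero _ (hUne _ (hnorm z hz))
    simp only [Complex.coe_algebraMap]
    exact_mod_cast (div_pos ht0 hS).ne'
  have hV : ∀ z : ℂ, ‖z‖ ≤ 1 → aeval z (C (1 / ((S : ℝ) * β)) * B) ≠ 0 := by
    intro z hz
    rw [map_mul, hB, aeval_evR, aeval_C]
    apply mul_ne_zero _ (hVne _ (hnorm z hz))
    simp only [Complex.coe_algebraMap]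
    exact_mod_cast (by positivity : (0:ℝ) < 1 / ((S : ℝ) * β)).ne'
  refine ⟨C (t / (S : ℝ)) * A, C (1 / ((S : ℝ) * β)) * B, hbez, hU, hV, ?_, ?_⟩
  · ext z
    simp only [Set.mem_ofPred_eq, Set.mem_singleton_iff]
    constructor
    · rintro ⟨hz, h⟩
      rw [map_mul, aeval_X] at h
      rcases mul_eq_zero.mp h with h | h
      · exact h
      · exact absurd h (hU z hz)
    · rintro rfl
      simp
  · intro h2
    have key : ∀ z : ℂ, aeval z (X * (C (t / (S : ℝ)) * A)) = 1 ↔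
        (z ^ 2 + (β : ℂ)) * aeval z (C (1 / ((S : ℝ) * β)) * B) = 0 := by
      intro z
      have h := congrArg (aeval z) hbez
      rw [map_add, map_mul (aeval z) (X ^ 2 + C β), map_one] at h
      have h3 : aeval z (X ^ 2 + C β : ℝ[X]) = z ^ 2 + (β : ℂ) := by
        simp
      rw [h3] at h
      constructor
      · intro h4; rw [h4] at h; linear_combination h
      · intro h4; rw [h4] at h; linear_combination h
    have hsq : ((Real.sqrt β : ℝ) : ℂ) ^ 2 = (β : ℂ) := by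
      rw [← Complex.ofReal_pow, Real.sq_sqrt hβ.le]
    ext z
    simp only [Set.mem_ofPred_eq, Set.mem_insert_iff, Set.mem_singleton_iff]
    constructor
    · rintro ⟨hz, h⟩
      rw [key] at h
      rcases mul_eq_zero.mp h with h | h
      · have h5 : (z - Complex.I * (Real.sqrt β : ℂ)) * (z + Complex.I * (Real.sqrt β : ℂ)) = 0 := by
          linear_combination h + hsq - ((Real.sqrt β : ℝ) : ℂ) ^ 2 * (Complex.I_sq)
        rcases mul_eq_zero.mp h5 with h6 | h6
        · left; linear_combination h6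
        · right; linear_combination h6
      · exact absurd h (hV z hz)
    · have hn : ‖Complex.I * (Real.sqrt β : ℂ)‖ ≤ 1 := by
        rw [norm_mul, Complex.norm_I, one_mul, Complex.norm_real, Real.norm_eq_abs,
          abs_of_nonneg (Real.sqrt_nonneg β)]
        exact Real.sqrt_le_one.mpr h2
      rintro (rfl | rfl)
      · refine ⟨hn, ?_⟩
        rw [key]
        have : (Complex.I * (Real.sqrt β : ℂ)) ^ 2 + (β : ℂ) = 0 := by
          linear_combination -hsq + ((Real.sqrt β : ℝ) : ℂ) ^ 2 * (Complex.I_sq)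
        rw [this, zero_mul]
      · refine ⟨by rwa [norm_neg], ?_⟩
        rw [key]
        have : (-(Complex.I * (Real.sqrt β : ℂ))) ^ 2 + (β : ℂ) = 0 := by
          linear_combination -hsq + ((Real.sqrt β : ℝ) : ℂ) ^ 2 * (Complex.I_sq)
        rw [this, zero_mul]

end Pool.Agent.Results.MP_2b3e36_an.BistableBound
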