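import Mathlib
import Pool.Agent.Helper504.ConjPair

set_option autoImplicit false

open Polynomial

namespace Pool.Agent.Results.MP_2b3e36_an.ConjPair

open Pool.Agent.Helper504.ConjPair

theorem jordan (w : ℂ) (hw : 0 < w.im) (h : 1 / 4 < ‖w‖) :
    min w.arg (Real.pi - w.arg) < 2 * Real.pi * w.im := by
  have hs : ‖w‖ * Real.sin w.arg = w.im := Complex.norm_mul_sin_arg w
  have h0 : 0 < w.arg := by
    have h1 := Complex.arg_nonneg_iff.mpr hw.le
    rcases h1.lt_or_eq with h | h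
    · exact h
    · exfalso
      have := Complex.arg_eq_zero_iff.mp h.symm
      linarith [this.2]
  have h1 : w.arg < Real.pi := Complex.arg_lt_pi_iff.mpr (Or.inr hw.ne')
  have key : ∀ m : ℝ, 0 < m → m ≤ Real.pi / 2 → Real.sin m = Real.sin w.arg →
      m < 2 * Real.pi * w.im := by
    intro m hm0 hm1 hm2
    have h2 := Real.mul_le_sin hm0.le hm1
    rw [hm2] at h2
    rw [← hs]
    have h3 : 2 / Real.pi * m * Real.pi = 2 * m := by
      field_simp
    have h4 := mul_le_mul_of_nonneg_right h2 Real.pi_pos.le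
    rw [h3] at h4
    have h5 : 0 < Real.sin w.arg := Real.sin_pos_of_pos_of_lt_pi h0 h1
    nlinarith [mul_pos h5 Real.pi_pos]
  rcases le_total w.arg (Real.pi / 2) with h2 | h2
  · exact min_lt_of_left_lt (key _ h0 h2 rfl)
  · exact min_lt_of_right_lt (key _ (by linarith) (by linarith) (Real.sin_pi_sub _))

/-- Case `n_z = 1`, `n_o = 2`: `Z = {x}` with `x` real, `O = {o, conj o}` with `o` not real.
Let `w = (o - x) / (1 - x o)`. If `|w| > 1/4`, or more generally if
`min (arg w) (π - arg w) < 2 π Im w`, there are real polynomials `A`, `B`, `E` without zeros in the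
closed unit disc with `(z - x) A + (z - o) (z - conj o) B = E`. So `q = (z - x) A / E` is stable,
its zero set in the disc is `{x}`, its one set is `{o, conj o}`, all these points are simple, and
`c = A / B` is a bistable controller stabilizing `(z - x) / ((z - o) (z - conj o))`. -/
theorem result (x : ℝ) (hx : |x| < 1) (o : ℂ) (ho : ‖o‖ ≤ 1) (him : 0 < o.im)
    (h : 1 / 4 < ‖(o - x) / (1 - x * o)‖ ∨
      min ((o - x) / (1 - x * o)).arg (Real.pi - ((o - x) / (1 - x * o)).arg) <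
        2 * Real.pi * ((o - x) / (1 - x * o)).im) :
    ∃ A B E : ℝ[X], (∀ z : ℂ, ‖z‖ ≤ 1 → aeval z A ≠ 0) ∧ (∀ z : ℂ, ‖z‖ ≤ 1 → aeval z B ≠ 0) ∧
      (∀ z : ℂ, ‖z‖ ≤ 1 → aeval z E ≠ 0) ∧
      ∀ z : ℂ, (z - x) * aeval z A + (z - o) * (z - (starRingEnd ℂ) o) * aeval z B =
        aeval z E := by
  have hx2 : 0 < 1 - x ^ 2 := by
    have := abs_lt.mp hx
    nlinarith [this.1, this.2]
  have hl : ∀ z : ℂ, ‖z‖ ≤ 1 → 1 - (x : ℂ) * z ≠ 0 := by
    intro z hz h0
    have h1 : (x : ℂ) * z = 1 := (sub_eq_zero.mp h0).symm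
    have h2 := congrArg norm h1
    rw [norm_mul, Complex.norm_real, Real.norm_eq_abs, norm_one] at h2
    nlinarith [norm_nonneg z, abs_nonneg x]
  have hφ : ∀ z : ℂ, ‖z‖ ≤ 1 → ‖(z - x) / (1 - x * z)‖ ≤ 1 := by
    intro z hz
    rw [norm_div, div_le_one (norm_pos_iff.mpr (hl z hz))]
    apply (sq_le_sq₀ (norm_nonneg _) (norm_nonneg _)).mp
    have h1 : ‖z‖ ^ 2 ≤ 1 := by nlinarith [norm_nonneg z]
    rw [Complex.sq_norm, Complex.normSq_apply] at h1
    rw [Complex.sq_norm, Complex.sq_norm, Complex.normSq_apply, Complex.normSq_apply]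
    simp only [Complex.sub_re, Complex.sub_im, Complex.one_re, Complex.one_im,
      Complex.re_ofReal_mul, Complex.im_ofReal_mul, Complex.ofReal_re, Complex.ofReal_im]
    nlinarith [mul_nonneg hx2.le (sub_nonneg.mpr h1)]
  obtain ⟨w, hw⟩ : ∃ w : ℂ, w = (o - x) / (1 - x * o) := ⟨_, rfl⟩
  have hwl : w * (1 - x * o) = o - x := by
    rw [hw, div_mul_cancel₀ _ (hl o ho)]
  have hwim : 0 < w.im := by
    have h1 : w.im * Complex.normSq (1 - x * o) = (1 - x ^ 2) * o.im := by
      have h2 : w * (Complex.normSq (1 - x * o) : ℂ) = (o - x) * (starRingEnd ℂ) (1 - x * o) := by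
        rw [← Complex.mul_conj, ← mul_assoc, hwl]
      have h3 := congrArg Complex.im h2
      rw [Complex.im_mul_ofReal] at h3
      rw [h3]
      simp
      ring
    have h4 : 0 < Complex.normSq (1 - x * o) := Complex.normSq_pos.mpr (hl o ho)
    have h5 : 0 < (1 - x ^ 2) * o.im := mul_pos hx2 him
    rw [← h1] at h5
    exact (mul_pos_iff_of_pos_right h4).mp h5
  have hcond : min w.arg (Real.pi - w.arg) < 2 * Real.pi * w.im := by
    rw [← hw] at h
    rcases h with h | h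
    · exact jordan w hwim h
    · exact h
  obtain ⟨n, a, t, hn, ha0, ha1, ht0, hcore⟩ := core2 w (by rw [hw]; exact hφ o ho) hwim hcond
  obtain ⟨k, rfl⟩ : ∃ k, n = k + 1 := ⟨n - 1, by omega⟩
  have htc : (t : ℂ) ≠ 0 := by exact_mod_cast ht0
  -- the polynomials
  obtain ⟨L, hL⟩ : ∃ L : ℝ[X], L = 1 - C x * X := ⟨_, rfl⟩
  obtain ⟨S, hS⟩ : ∃ S : ℝ[X], S = X - C x := ⟨_, rfl⟩
  have hLe : ∀ z : ℂ, aeval z L = 1 - x * z := by intro z; rw [hL]; simp
  have hSe : ∀ z : ℂ, aeval z S = z - x := by intro z; rw [hS]; simp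
  obtain ⟨A, hA⟩ : ∃ A : ℝ[X], A = C t⁻¹ * (L - C a * S) ^ (k + 1) := ⟨_, rfl⟩
  have hAe : ∀ z : ℂ, aeval z A = (t : ℂ)⁻¹ * ((1 - x * z) - a * (z - x)) ^ (k + 1) := by
    intro z
    rw [hA]
    simp [hLe, hSe]
  have hEe : ∀ z : ℂ, aeval z (L ^ (k + 2)) = (1 - x * z) ^ (k + 2) := by
    intro z; simp [hLe]
  -- the equation `E = N`
  have heq : ∀ z : ℂ, ‖z‖ ≤ 1 → (aeval z (L ^ (k + 2) - S * A) = 0 ↔
      (z - x) / (1 - x * z) * (1 - a * ((z - x) / (1 - x * z))) ^ (k + 1) = (t : ℂ)) := by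
    intro z hz
    have h1 := hl z hz
    rw [map_sub, map_mul, hEe, hAe, hSe]
    have e : (1 : ℂ) - a * ((z - x) / (1 - x * z)) = ((1 - x * z) - a * (z - x)) / (1 - x * z) := by
      rw [eq_div_iff h1, sub_mul, one_mul, mul_assoc, div_mul_cancel₀ _ h1]
    rw [e, div_pow, div_mul_div_comm, div_eq_iff (mul_ne_zero h1 (pow_ne_zero _ h1)), sub_eq_zero]
    constructor
    · intro h2
      rw [← pow_succ', h2]
      field_simp
    · intro h2
      have h3 : (z - x) * ((t : ℂ)⁻¹ * ((1 - x * z) - a * (z - x)) ^ (k + 1)) =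
          (t : ℂ)⁻¹ * ((z - x) * ((1 - x * z) - a * (z - x)) ^ (k + 1)) := by ring
      rw [h3, h2]
      field_simp
      ring
  have hroots : ∀ z : ℂ, ‖z‖ ≤ 1 → aeval z (L ^ (k + 2) - S * A) = 0 →
      z = o ∨ z = (starRingEnd ℂ) o := by
    intro z hz h0
    have h1 := (hcore _ (hφ z hz)).mp ((heq z hz).mp h0)
    have hinj : ∀ p : ℂ, ‖p‖ ≤ 1 → (z - x) / (1 - x * z) = (p - x) / (1 - x * p) → z = p := by
      intro p hp h2
      rw [div_eq_div_iff (hl z hz) (hl p hp)] at h2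
      have h3 : (1 - (x : ℂ) ^ 2) * (z - p) = 0 := by linear_combination h2
      rcases mul_eq_zero.mp h3 with h4 | h4
      · exfalso
        have : (1 - x ^ 2 : ℝ) = 0 := by exact_mod_cast h4
        linarith
      · exact sub_eq_zero.mp h4
    rcases h1 with h1 | h1
    · left
      exact hinj o ho (by rw [h1, hw])
    · right
      apply hinj _ (by rwa [RCLike.norm_conj])
      rw [h1, hw]
      simp
  have ho_root : aeval o (L ^ (k + 2) - S * A) = 0 := by
    rw [heq o ho, ← hw]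
    exact (hcore w (by rw [hw]; exact hφ o ho)).mpr (Or.inl rfl)
  obtain ⟨B, hB⟩ := Polynomial.quadratic_dvd_of_aeval_eq_zero_im_ne_zero _ ho_root him.ne'
  obtain ⟨Q, hQ⟩ : ∃ Q : ℝ[X], Q = X ^ 2 - C (2 * o.re) * X + C (‖o‖ ^ 2) := ⟨_, rfl⟩
  rw [← hQ] at hB
  have hQe : ∀ z : ℂ, aeval z Q = (z - o) * (z - (starRingEnd ℂ) o) := by
    intro z
    rw [hQ]
    simp only [map_add, map_sub, map_mul, map_pow, aeval_X, aeval_C]
    have h1 : ((‖o‖ ^ 2 : ℝ) : ℂ) = o * (starRingEnd ℂ) o := by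
      rw [Complex.mul_conj, Complex.sq_norm]
    have h2 : ((2 : ℝ) : ℂ) * (o.re : ℂ) = o + (starRingEnd ℂ) o := by
      rw [Complex.add_conj]; push_cast; ring
    simp only [Complex.coe_algebraMap]
    rw [h2]
    have h3 : ((‖o‖ : ℝ) : ℂ) ^ 2 = o * (starRingEnd ℂ) o := by rw [← h1]; push_cast; rfl
    rw [h3]
    ring
  have hBo : aeval o B ≠ 0 := by
    intro hB0
    have hd := congrArg (fun p => aeval o (derivative p)) hB
    simp only [derivative_mul, map_add, map_mul] at hd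
    rw [hB0, hQe o, sub_self, zero_mul, zero_mul, mul_zero, add_zero] at hd
    have hl0 := hl o ho
    have hs : (o - x) * ((1 - x * o) - a * (o - x)) ^ (k + 1) = t * (1 - x * o) ^ (k + 2) := by
      have h1 := ho_root
      rw [map_sub, map_mul, hEe, hAe, hSe, sub_eq_zero] at h1
      rw [h1]
      field_simp
    have hD : ((k : ℂ) + 2) * (1 - x * o) ^ (k + 1) * (-x) -
        ((t : ℂ)⁻¹ * ((1 - x * o) - a * (o - x)) ^ (k + 1) + (o - x) * ((t : ℂ)⁻¹ *
          (((k : ℂ) + 1) * ((1 - x * o) - a * (o - x)) ^ k * (-x - a)))) = 0 := by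
      rw [← hd, hA, hL, hS]
      simp [derivative_pow, derivative_mul]
    have hkey : (t : ℂ) * (1 - x * o) ^ (k + 1) * (1 - x ^ 2) *
        (a * ((k : ℂ) + 2) * (o - x) - (1 - x * o)) = 0 := by
      have e1 : (t : ℂ) * (t : ℂ)⁻¹ = 1 := mul_inv_cancel₀ htc
      have h1 : (t : ℂ) * (o - x) * ((1 - x * o) - a * (o - x)) *
        (((k : ℂ) + 2) * (1 - x * o) ^ (k + 1) * (-x) -
        ((t : ℂ)⁻¹ * ((1 - x * o) - a * (o - x)) ^ (k + 1) + (o - x) * ((t : ℂ)⁻¹ *
          (((k : ℂ) + 1) * ((1 - x * o) - a * (o - x)) ^ k * (-x - a))))) = 0 := by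
        rw [hD, mul_zero]
      have h2 : (t : ℂ) * (o - x) * ((1 - x * o) - a * (o - x)) *
        (((k : ℂ) + 2) * (1 - x * o) ^ (k + 1) * (-x) -
        ((t : ℂ)⁻¹ * ((1 - x * o) - a * (o - x)) ^ (k + 1) + (o - x) * ((t : ℂ)⁻¹ *
          (((k : ℂ) + 1) * ((1 - x * o) - a * (o - x)) ^ k * (-x - a))))) =
        -(x * (k + 2) * t * (o - x) * ((1 - x * o) - a * (o - x)) * (1 - x * o) ^ (k + 1)) -
        ((t : ℂ) * (t : ℂ)⁻¹) * ((o - x) * ((1 - x * o) - a * (o - x)) ^ (k + 1)) *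
          ((1 - x * o) - a * (o - x)) +
        ((t : ℂ) * (t : ℂ)⁻¹) * (k + 1) * (x + a) * (o - x) *
          ((o - x) * ((1 - x * o) - a * (o - x)) ^ (k + 1)) := by
        ring
      rw [h2, e1, hs] at h1
      linear_combination h1
    have h1x : (1 - (x : ℂ) ^ 2) ≠ 0 := by
      intro h0
      have : (1 - x ^ 2 : ℝ) = 0 := by exact_mod_cast h0
      linarith
    rcases mul_eq_zero.mp hkey with h1 | h1
    · exact mul_ne_zero (mul_ne_zero htc (pow_ne_zero _ hl0)) h1x h1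
    · have h2 : (1 : ℂ) - a * (k + 2) * w = 0 := by
        have h3 : (1 - x * o) * ((1 : ℂ) - a * (k + 2) * w) = 0 := by
          linear_combination -h1 - a * (k + 2) * hwl
        exact (mul_eq_zero.mp h3).resolve_left hl0
      have h3 := congrArg Complex.im h2
      have h4 : ((1 : ℂ) - a * (k + 2) * w).im = -(a * (k + 2) * w.im) := by
        have : (1 : ℂ) - a * (k + 2) * w = 1 - ((a * (k + 2) : ℝ) : ℂ) * w := by push_cast; ring
        rw [this, Complex.sub_im, Complex.im_ofReal_mul, Complex.one_im]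
        ring
      rw [h4, Complex.zero_im, neg_eq_zero] at h3
      have h5 : (0 : ℝ) < (k : ℝ) + 2 := by positivity
      rcases mul_eq_zero.mp h3 with h6 | h6
      · rcases mul_eq_zero.mp h6 with h7 | h7
        · exact ha0 h7
        · exact h5.ne' h7
      · exact hwim.ne' h6
  have hconj : ∀ (p : ℝ[X]) (z : ℂ), aeval ((starRingEnd ℂ) z) p = (starRingEnd ℂ) (aeval z p) :=
    fun p z => Polynomial.aeval_conj p z
  refine ⟨A, B, L ^ (k + 2), ?_, ?_, ?_, ?_⟩
  · intro z hz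
    rw [hAe]
    apply mul_ne_zero (inv_ne_zero htc)
    apply pow_ne_zero
    intro h0
    have h1 : (a : ℂ) * ((z - x) / (1 - x * z)) = 1 := by
      rw [mul_div_assoc', div_eq_one_iff_eq (hl z hz)]
      linear_combination -h0
    have h2 := congrArg norm h1
    rw [norm_mul, Complex.norm_real, Real.norm_eq_abs, norm_one] at h2
    nlinarith [hφ z hz, abs_nonneg a, norm_nonneg ((z - x) / (1 - x * z))]
  · intro z hz h0
    have h1 : aeval z (L ^ (k + 2) - S * A) = 0 := by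
      rw [hB, map_mul, h0, mul_zero]
    rcases hroots z hz h1 with rfl | rfl
    · exact hBo h0
    · rw [hconj, map_eq_zero] at h0
      exact hBo h0
  · intro z hz
    rw [hEe]
    exact pow_ne_zero _ (hl z hz)
  · intro z
    have h1 := congrArg (aeval z) hB
    rw [map_sub, map_mul, map_mul, hQe, hSe] at h1
    linear_combination -h1

end Pool.Agent.Results.MP_2b3e36_an.ConjPair
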