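import Mathlib
import Pool.Agent.Helper504.Circle

set_option autoImplicit false

open Polynomial ComplexConjugate

namespace Pool.Agent.Results.MP_2b3e36_an.OnCircle

open Pool.Agent.Helper504.Circle

/-- Let `Z` and `O` be disjoint finite subsets of the closed unit disc, both closed under complex
conjugation. If all points of `Z`, or all points of `O`, lie on the unit circle, then there is a
stable real rational function `N / D` whose zero set in the closed unit disc is `Z` and whose set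
of ones in the closed unit disc is `O`. -/
theorem result (Z O : Finset ℂ) (hZ : ∀ z ∈ Z, ‖z‖ ≤ 1) (hO : ∀ z ∈ O, ‖z‖ ≤ 1)
    (hd : Disjoint Z O) (hZc : ∀ z ∈ Z, conj z ∈ Z) (hOc : ∀ z ∈ O, conj z ∈ O)
    (hb : (∀ z ∈ Z, ‖z‖ = 1) ∨ (∀ z ∈ O, ‖z‖ = 1)) :
    ∃ N D : ℝ[X], (∀ z : ℂ, ‖z‖ ≤ 1 → aeval z D ≠ 0) ∧
      {z : ℂ | ‖z‖ ≤ 1 ∧ aeval z N / aeval z D = 0} = Z ∧
      {z : ℂ | ‖z‖ ≤ 1 ∧ aeval z N / aeval z D = 1} = O := by
  have key : ∃ N D : ℝ[X], (∀ z : ℂ, ‖z‖ ≤ 1 → aeval z D ≠ 0) ∧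
      (∀ z : ℂ, ‖z‖ ≤ 1 → (aeval z N / aeval z D = 0 ↔ z ∈ Z)) ∧
      ∀ z : ℂ, ‖z‖ ≤ 1 → (aeval z N / aeval z D = 1 ↔ z ∈ O) := by
    rcases hb with hb | hb
    · obtain ⟨N, D, hD, h0, h1⟩ := real_sol O Z hOc hZc hb hd.symm
      have e : ∀ z : ℂ, ‖z‖ ≤ 1 → aeval z (D - N) / aeval z D = 1 - aeval z N / aeval z D := by
        intro z hz
        rw [map_sub, sub_div, div_self (hD z hz)]
      refine ⟨D - N, D, hD, fun z hz => ?_, fun z hz => ?_⟩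
      · rw [e z hz, ← h1 z hz, sub_eq_zero]
        exact eq_comm
      · rw [e z hz, ← h0 z hz, sub_eq_self]
    · exact real_sol Z O hZc hOc hb hd
  obtain ⟨N, D, hD, h0, h1⟩ := key
  refine ⟨N, D, hD, ?_, ?_⟩
  · ext z
    simp only [Set.mem_ofPred_eq, Finset.mem_coe]
    exact ⟨fun h => (h0 z h.1).mp h.2, fun h => ⟨hZ z h, (h0 z (hZ z h)).mpr h⟩⟩
  · ext z
    simp only [Set.mem_ofPred_eq, Finset.mem_coe]
    exact ⟨fun h => (h1 z h.1).mp h.2, fun h => ⟨hO z h, (h1 z (hO z h)).mpr h⟩⟩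

end Pool.Agent.Results.MP_2b3e36_an.OnCircle
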